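import Mathlib

/-!
# Digitwise operations and `k`-regular sequences

For every base `k ≥ 2` we determine the digitwise operations that preserve `k`-regularity.
-/

set_option autoImplicit false

namespace Pool.Agent.Results.MP_02a275_nt.AllDigitwiseOperations

/-- The `k`-kernel of an integer sequence `a`: all subsequences `n ↦ a (k ^ e * n + r)` with
`r < k ^ e`. -/
def kernel (k : ℕ) (a : ℕ → ℤ) : Set (ℕ → ℤ) :=
  {g | ∃ e r : ℕ, r < k ^ e ∧ g = fun n => a (k ^ e * n + r)}

/-- A sequence is `k`-regular if the `ℤ`-module generated by its `k`-kernel is finitely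
generated. -/
def IsRegular (k : ℕ) (a : ℕ → ℤ) : Prop :=
  (Submodule.span ℤ (kernel k a)).FG

/-- A two-dimensional array is `k`-regular if there are finitely many arrays such that every
subarray `(m, n) ↦ c (k ^ e * m + r) (k ^ e * n + t)` with `r, t < k ^ e` is a `ℤ`-linear
combination of them. -/
def IsRegularArray (k : ℕ) (c : ℕ → ℕ → ℤ) : Prop :=
  ∃ (s : ℕ) (g : Fin s → ℕ → ℕ → ℤ), ∀ e r t : ℕ, r < k ^ e → t < k ^ e →
    ∃ z : Fin s → ℤ, ∀ m n : ℕ, c (k ^ e * m + r) (k ^ e * n + t) = ∑ i, z i * g i m n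

/-- The digitwise operation: the operation `f` is applied to the base `k` digits of `x` and `y`.
(The digits in the places `i > x + y` of `x` and `y` are zero, and `f 0 0 = 0` is always
assumed.) -/
def digitwise (k : ℕ) (f : ℕ → ℕ → ℕ) (x y : ℕ) : ℕ :=
  ∑ i ∈ Finset.range (x + y + 1), f (x / k ^ i % k) (y / k ^ i % k) * k ^ i

/-- The digitwise operation given by `f` preserves `k`-regularity of sequences. -/
def PreservesSequences (k : ℕ) (f : ℕ → ℕ → ℕ) : Prop :=
  ∀ a b : ℕ → ℕ, IsRegular k (fun n => (a n : ℤ)) → IsRegular k (fun n => (b n : ℤ)) →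
    IsRegular k (fun n => (digitwise k f (a n) (b n) : ℤ))

/-- The digitwise operation given by `f` makes `k`-regular arrays of `k`-regular sequences. -/
def PreservesArrays (k : ℕ) (f : ℕ → ℕ → ℕ) : Prop :=
  ∀ a b : ℕ → ℕ, IsRegular k (fun n => (a n : ℤ)) → IsRegular k (fun n => (b n : ℤ)) →
    IsRegularArray k (fun i j => (digitwise k f (a i) (b j) : ℤ))

/-- On digits, the operation is zero, or the first argument, or the second argument. -/
def Trivial (k : ℕ) (f : ℕ → ℕ → ℕ) : Prop :=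
  (∀ x < k, ∀ y < k, f x y = 0) ∨ (∀ x < k, ∀ y < k, f x y = x) ∨ (∀ x < k, ∀ y < k, f x y = y)

section Digitwise

variable {k : ℕ} {f : ℕ → ℕ → ℕ}

theorem digitwise_eq (hk : 2 ≤ k) (h0 : f 0 0 = 0) {x y N : ℕ} (hN : x + y + 1 ≤ N) :
    digitwise k f x y = ∑ i ∈ Finset.range N, f (x / k ^ i % k) (y / k ^ i % k) * k ^ i := by
  unfold digitwise
  refine Finset.sum_subset (Finset.range_mono hN) ?_
  intro i _ hi
  rw [Finset.mem_range, not_lt] at hi
  have h1 : i < k ^ i := Nat.lt_pow_self (by omega)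
  rw [Nat.div_eq_of_lt (by omega), Nat.div_eq_of_lt (by omega), Nat.zero_mod, h0, zero_mul]

theorem digitwise_step (hk : 2 ≤ k) (h0 : f 0 0 = 0) {c d : ℕ} (hc : c < k) (hd : d < k)
    (x y : ℕ) :
    digitwise k f (k * x + c) (k * y + d) = f c d + k * digitwise k f x y := by
  have hx : x ≤ k * x := Nat.le_mul_of_pos_left x (by omega)
  have hy : y ≤ k * y := Nat.le_mul_of_pos_left y (by omega)
  set N := (k * x + c) + (k * y + d) + 1 with hN
  rw [digitwise_eq hk h0 (x := k * x + c) (y := k * y + d) (N := N + 1) (by omega),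
    digitwise_eq hk h0 (x := x) (y := y) (N := N) (by omega), Finset.sum_range_succ',
    Finset.mul_sum, add_comm]
  have hk0 : 0 < k := by omega
  congr 1
  · simp [Nat.mod_eq_of_lt hc, Nat.mod_eq_of_lt hd]
  · refine Finset.sum_congr rfl fun i _ => ?_
    have h1 : ∀ z w : ℕ, w < k → (k * z + w) / k ^ (i + 1) = z / k ^ i := by
      intro z w hw
      rw [pow_succ', ← Nat.div_div_eq_div_mul, Nat.mul_add_div hk0, Nat.div_eq_of_lt hw, add_zero]
    rw [h1 x c hc, h1 y d hd, pow_succ]
    ring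

theorem digitwise_zero (h0 : f 0 0 = 0) : digitwise k f 0 0 = 0 := by
  simp [digitwise, h0]

theorem digitwise_digit (hk : 2 ≤ k) (h0 : f 0 0 = 0) {c d : ℕ} (hc : c < k) (hd : d < k) :
    digitwise k f c d = f c d := by
  have h := digitwise_step hk h0 hc hd 0 0
  rw [digitwise_zero h0] at h
  simpa using h

theorem digitwise_shift (hk : 2 ≤ k) (h0 : f 0 0 = 0) (x y i : ℕ) :
    digitwise k f (k ^ i * x) (k ^ i * y) = k ^ i * digitwise k f x y := by
  induction i with
  | zero => simp
  | succ i ih =>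
    have h := digitwise_step hk h0 (c := 0) (d := 0) (by omega) (by omega) (k ^ i * x) (k ^ i * y)
    rw [h0, ih] at h
    rw [pow_succ', mul_assoc, mul_assoc]
    simpa [mul_assoc] using h

theorem dw_same (hk : 2 ≤ k) (h0 : f 0 0 = 0) {x y : ℕ} (hx : x < k) (hy : y < k) (i : ℕ) :
    digitwise k f (k ^ i * x) (k ^ i * y) = k ^ i * f x y := by
  rw [digitwise_shift hk h0, digitwise_digit hk h0 hx hy]

theorem dw_ne (hk : 2 ≤ k) (h0 : f 0 0 = 0) {x y : ℕ} (hx : x < k) (hy : y < k) {i j : ℕ}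
    (hij : i ≠ j) : digitwise k f (k ^ i * x) (k ^ j * y) = k ^ i * f x 0 + k ^ j * f 0 y := by
  have hk0 : 0 < k := by omega
  rcases Nat.lt_or_gt_of_ne hij with h | h
  · obtain ⟨d, rfl⟩ : ∃ d, j = i + (d + 1) := ⟨j - i - 1, by omega⟩
    have h1 : k ^ (i + (d + 1)) * y = k ^ i * (k * (k ^ d * y) + 0) := by ring
    have h2 : digitwise k f x (k * (k ^ d * y) + 0) = f x 0 + k * (k ^ d * f 0 y) := by
      have h3 := digitwise_step hk h0 hx hk0 0 (k ^ d * y)
      have h4 := dw_same hk h0 hk0 hy d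
      rw [mul_zero] at h4
      rw [h4] at h3
      simpa using h3
    rw [h1, digitwise_shift hk h0, h2]
    ring
  · obtain ⟨d, rfl⟩ : ∃ d, i = j + (d + 1) := ⟨i - j - 1, by omega⟩
    have h1 : k ^ (j + (d + 1)) * x = k ^ j * (k * (k ^ d * x) + 0) := by ring
    have h2 : digitwise k f (k * (k ^ d * x) + 0) y = f 0 y + k * (k ^ d * f x 0) := by
      have h3 := digitwise_step hk h0 hk0 hy (k ^ d * x) 0
      have h4 := dw_same hk h0 hx hk0 d
      rw [mul_zero] at h4
      rw [h4] at h3
      simpa using h3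
    rw [h1, digitwise_shift hk h0, h2]
    ring

theorem dw_add (hk : 2 ≤ k) (h0 : f 0 0 = 0) {x : ℕ} (hx : x < k) {i j : ℕ} (hij : i ≠ j) :
    digitwise k f (k ^ i * x + k ^ j) 0 = k ^ i * f x 0 + k ^ j * f 1 0 := by
  have hk0 : 0 < k := by omega
  have hk1 : 1 < k := by omega
  rcases Nat.lt_or_gt_of_ne hij with h | h
  · obtain ⟨d, rfl⟩ : ∃ d, j = i + (d + 1) := ⟨j - i - 1, by omega⟩
    have h1 : k ^ i * x + k ^ (i + (d + 1)) = k ^ i * (k * (k ^ d * 1) + x) := by ring
    have h2 : digitwise k f (k * (k ^ d * 1) + x) 0 = f x 0 + k * (k ^ d * f 1 0) := by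
      have h3 := digitwise_step hk h0 hx hk0 (k ^ d * 1) 0
      have h4 := dw_same hk h0 hk1 hk0 d
      rw [mul_zero] at h4
      rw [h4] at h3
      simpa using h3
    have h5 := digitwise_shift hk h0 (k * (k ^ d * 1) + x) 0 i
    rw [mul_zero] at h5
    rw [h1, h5, h2]
    ring
  · obtain ⟨d, rfl⟩ : ∃ d, i = j + (d + 1) := ⟨i - j - 1, by omega⟩
    have h1 : k ^ (j + (d + 1)) * x + k ^ j = k ^ j * (k * (k ^ d * x) + 1) := by ring
    have h2 : digitwise k f (k * (k ^ d * x) + 1) 0 = f 1 0 + k * (k ^ d * f x 0) := by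
      have h3 := digitwise_step hk h0 hk1 hk0 (k ^ d * x) 0
      have h4 := dw_same hk h0 hx hk0 d
      rw [mul_zero] at h4
      rw [h4] at h3
      simpa using h3
    have h5 := digitwise_shift hk h0 (k * (k ^ d * x) + 1) 0 j
    rw [mul_zero] at h5
    rw [h1, h5, h2]
    ring

theorem digitwise_swap (x y : ℕ) :
    digitwise k (fun u v => f v u) x y = digitwise k f y x := by
  unfold digitwise
  rw [add_comm x y]

/-- induction on the digits -/
theorem digit_induction (hk : 2 ≤ k) {p : ℕ → ℕ → Prop} (h0 : p 0 0)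
    (hs : ∀ x y c d, c < k → d < k → p x y → p (k * x + c) (k * y + d)) (x y : ℕ) : p x y := by
  induction h : x + y using Nat.strong_induction_on generalizing x y with
  | _ n ih =>
    rcases Nat.eq_zero_or_pos n with hn | hn
    · obtain ⟨rfl, rfl⟩ : x = 0 ∧ y = 0 := by omega
      exact h0
    · have hk0 : 0 < k := by omega
      have hx := Nat.div_add_mod x k
      have hy := Nat.div_add_mod y k
      have hlt : x / k + y / k < n := by
        rcases Nat.eq_zero_or_pos x with h1 | h1
        · have h2 : y / k < y := Nat.div_lt_self (by omega) (by omega)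
          have h3 : x / k ≤ x := Nat.div_le_self x k
          omega
        · have h2 : x / k < x := Nat.div_lt_self h1 (by omega)
          have h3 : y / k ≤ y := Nat.div_le_self y k
          omega
      have h4 := hs (x / k) (y / k) (x % k) (y % k) (Nat.mod_lt _ hk0) (Nat.mod_lt _ hk0)
        (ih _ hlt _ _ rfl)
      rwa [hx, hy] at h4

theorem digitwise_of_zero (hk : 2 ≤ k) (hf : ∀ x < k, ∀ y < k, f x y = 0) (x y : ℕ) :
    digitwise k f x y = 0 := by
  have h0 : f 0 0 = 0 := hf 0 (by omega) 0 (by omega)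
  refine digit_induction hk (p := fun x y => digitwise k f x y = 0) (digitwise_zero h0) ?_ x y
  intro x y c d hc hd h
  rw [digitwise_step hk h0 hc hd, h, hf c hc d hd, mul_zero, add_zero]

theorem digitwise_of_fst (hk : 2 ≤ k) (hf : ∀ x < k, ∀ y < k, f x y = x) (x y : ℕ) :
    digitwise k f x y = x := by
  have h0 : f 0 0 = 0 := hf 0 (by omega) 0 (by omega)
  refine digit_induction hk (p := fun x y => digitwise k f x y = x) (digitwise_zero h0) ?_ x y
  intro x y c d hc hd h
  rw [digitwise_step hk h0 hc hd, h, hf c hc d hd, add_comm]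

theorem digitwise_of_snd (hk : 2 ≤ k) (hf : ∀ x < k, ∀ y < k, f x y = y) (x y : ℕ) :
    digitwise k f x y = y := by
  have h0 : f 0 0 = 0 := hf 0 (by omega) 0 (by omega)
  refine digit_induction hk (p := fun x y => digitwise k f x y = y) (digitwise_zero h0) ?_ x y
  intro x y c d hc hd h
  rw [digitwise_step hk h0 hc hd, h, hf c hc d hd, add_comm]

theorem digitwise_xor (x y : ℕ) : digitwise 2 (fun u v => (u + v) % 2) x y = x ^^^ y := by
  have h0 : (fun u v : ℕ => (u + v) % 2) 0 0 = 0 := rfl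
  refine digit_induction le_rfl
    (p := fun x y => digitwise 2 (fun u v => (u + v) % 2) x y = x ^^^ y) ?_ ?_ x y
  · simp [digitwise]
  · intro x y c d hc hd h
    rw [digitwise_step le_rfl h0 hc hd, h]
    have h1 : ((2 * x + c) ^^^ (2 * y + d)) / 2 = (2 * x + c) / 2 ^^^ (2 * y + d) / 2 :=
      Nat.xor_div_two
    have h2 : ((2 * x + c) ^^^ (2 * y + d)) % 2 = 1 ↔
        ¬ ((2 * x + c) % 2 = 1 ↔ (2 * y + d) % 2 = 1) := Nat.xor_mod_two_eq_one
    have h3 : (2 * x + c) / 2 = x := by omega
    have h4 : (2 * y + d) / 2 = y := by omega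
    rw [h3, h4] at h1
    have h5 : (c + d) % 2 = ((2 * x + c) ^^^ (2 * y + d)) % 2 := by
      generalize (2 * x + c) ^^^ (2 * y + d) = u at *
      omega
    rw [h5, ← h1]
    exact Nat.mod_add_div _ 2

end Digitwise

section Regular

variable {k : ℕ}

theorem regular_of_le {a : ℕ → ℤ} {S : Submodule ℤ (ℕ → ℤ)} (hS : S.FG)
    (h : kernel k a ⊆ S) : IsRegular k a := by
  have : Module.Finite ℤ S := Module.Finite.iff_fg.mpr hS
  have : IsNoetherian ℤ S := isNoetherian_of_isNoetherianRing_of_finite ℤ S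
  exact (isNoetherian_submodule.mp inferInstance) _ (Submodule.span_le.2 h)

/-- the operator `g ↦ g (k n + d)` -/
def sub (k d : ℕ) : (ℕ → ℤ) →ₗ[ℤ] (ℕ → ℤ) where
  toFun g := fun n => g (k * n + d)
  map_add' _ _ := rfl
  map_smul' _ _ := rfl

theorem isRegular_of_gens (hk : 2 ≤ k) (a : ℕ → ℤ) (G : Finset (ℕ → ℤ)) (ha : a ∈ G)
    (h : ∀ d < k, ∀ g ∈ G, sub k d g ∈ Submodule.span ℤ (G : Set (ℕ → ℤ))) :
    IsRegular k a := by
  have hst : ∀ d < k, ∀ g ∈ Submodule.span ℤ (G : Set (ℕ → ℤ)),
      sub k d g ∈ Submodule.span ℤ (G : Set (ℕ → ℤ)) := by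
    intro d hd g hg
    have h1 : (Submodule.span ℤ (G : Set (ℕ → ℤ))).map (sub k d) ≤
        Submodule.span ℤ (G : Set (ℕ → ℤ)) :=
      (Submodule.map_span_le _ _ _).2 fun g hg => h d hd g (by simpa using hg)
    exact h1 ⟨g, hg, rfl⟩
  have key : ∀ e r : ℕ, r < k ^ e → ∀ g ∈ Submodule.span ℤ (G : Set (ℕ → ℤ)),
      (fun n => g (k ^ e * n + r)) ∈ Submodule.span ℤ (G : Set (ℕ → ℤ)) := by
    intro e
    induction e with
    | zero =>
      intro r hr g hg
      have : r = 0 := by simpa using hr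
      subst this
      simpa using hg
    | succ e ih =>
      intro r hr g hg
      have hk0 : 0 < k := by omega
      have h1 : r / k < k ^ e := by
        rw [Nat.div_lt_iff_lt_mul hk0, ← pow_succ]
        exact hr
      have h2 := ih (r / k) h1 _ (hst (r % k) (Nat.mod_lt _ hk0) g hg)
      have h3 : (fun n => g (k ^ (e + 1) * n + r)) =
          fun n => (sub k (r % k) g) (k ^ e * n + r / k) := by
        funext n
        show g _ = g (k * (k ^ e * n + r / k) + r % k)
        congr 1
        have := Nat.div_add_mod r k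
        calc k ^ (e + 1) * n + r = k ^ (e + 1) * n + (k * (r / k) + r % k) := by rw [this]
          _ = _ := by ring
      rw [h3]
      exact h2
  refine regular_of_le (Submodule.fg_span G.finite_toSet) ?_
  rintro g ⟨e, r, hr, rfl⟩
  exact key e r hr a (Submodule.subset_span (by simpa using ha))

/-- `idx k n = m` for `n = k ^ j * (k * m + d)`, `0 < d < k` -/
def idx (k n : ℕ) : ℕ :=
  if _h : 2 ≤ k ∧ n ≠ 0 ∧ n % k = 0 then idx k (n / k) else n / k
termination_by n
decreasing_by exact Nat.div_lt_self (by omega) (by omega)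

/-- `pw k n = k ^ j` for `n = k ^ j * (k * m + d)`, `0 < d < k`, and `pw k 0 = 0` -/
def pw (k n : ℕ) : ℕ :=
  if _h : 2 ≤ k ∧ n ≠ 0 ∧ n % k = 0 then k * pw k (n / k) else if n = 0 then 0 else 1
termination_by n
decreasing_by exact Nat.div_lt_self (by omega) (by omega)

theorem trivial_not (k : ℕ) (hk : 2 ≤ k) : ¬ Trivial k (fun x y => (x + y) % k) := by
  have h01 : (0 + 1) % k = 1 := Nat.mod_eq_of_lt (by omega)
  have h10 : (1 + 0) % k = 1 := Nat.mod_eq_of_lt (by omega)
  rintro (h | h | h)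
  · have h1 : (1 + 0) % k = 0 := h 1 (by omega) 0 (by omega)
    omega
  · have h1 : (0 + 1) % k = 0 := h 0 (by omega) 1 (by omega)
    omega
  · have h1 : (1 + 0) % k = 0 := h 1 (by omega) 0 (by omega)
    omega

theorem idx_mul (hk : 2 ≤ k) (n : ℕ) : idx k (k * n) = idx k n := by
  have hk0 : 0 < k := by omega
  rcases Nat.eq_zero_or_pos n with rfl | hn
  · rw [mul_zero]
  · have h : 2 ≤ k ∧ k * n ≠ 0 ∧ k * n % k = 0 := ⟨hk, by positivity, by simp⟩
    rw [idx, dif_pos h, Nat.mul_div_cancel_left _ hk0]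

theorem idx_add (hk : 2 ≤ k) (n : ℕ) {d : ℕ} (hd : 0 < d) (hdk : d < k) :
    idx k (k * n + d) = n := by
  have hk0 : 0 < k := by omega
  have h : ¬ (2 ≤ k ∧ k * n + d ≠ 0 ∧ (k * n + d) % k = 0) := by
    rintro ⟨-, -, h⟩
    rw [Nat.mul_add_mod, Nat.mod_eq_of_lt hdk] at h
    omega
  rw [idx, dif_neg h, Nat.mul_add_div hk0, Nat.div_eq_of_lt hdk, add_zero]

theorem pw_mul (hk : 2 ≤ k) (n : ℕ) : pw k (k * n) = k * pw k n := by
  have hk0 : 0 < k := by omega
  rcases Nat.eq_zero_or_pos n with rfl | hn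
  · have h : pw k 0 = 0 := by rw [pw]; simp
    rw [mul_zero, h, mul_zero]
  · have h : 2 ≤ k ∧ k * n ≠ 0 ∧ k * n % k = 0 := ⟨hk, by positivity, by simp⟩
    rw [pw, dif_pos h, Nat.mul_div_cancel_left _ hk0]

theorem pw_add (n : ℕ) {d : ℕ} (hd : 0 < d) (hdk : d < k) :
    pw k (k * n + d) = 1 := by
  have h : ¬ (2 ≤ k ∧ k * n + d ≠ 0 ∧ (k * n + d) % k = 0) := by
    rintro ⟨-, -, h⟩
    rw [Nat.mul_add_mod, Nat.mod_eq_of_lt hdk] at h
    omega
  rw [pw, dif_neg h, if_neg (by omega)]

theorem idx_val (hk : 2 ≤ k) (j n : ℕ) : idx k (k ^ (j + 1) * n + k ^ j) = n := by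
  induction j with
  | zero =>
    have := idx_add hk n (d := 1) (by omega) (by omega)
    simpa using this
  | succ j ih =>
    have h : k ^ (j + 1 + 1) * n + k ^ (j + 1) = k * (k ^ (j + 1) * n + k ^ j) := by ring
    rw [h, idx_mul hk, ih]

theorem pw_val (hk : 2 ≤ k) (j n : ℕ) : pw k (k ^ (j + 1) * n + k ^ j) = k ^ j := by
  induction j with
  | zero =>
    have := pw_add (k := k) n (d := 1) (by omega) (by omega)
    simpa using this
  | succ j ih =>
    have h : k ^ (j + 1 + 1) * n + k ^ (j + 1) = k * (k ^ (j + 1) * n + k ^ j) := by ring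
    rw [h, pw_mul hk, ih]
    ring

/-- all sequences `c idx + y pw` are regular -/
theorem regular_comb (hk : 2 ≤ k) (c y : ℕ) :
    IsRegular k (fun n => ((c * idx k n + y * pw k n : ℕ) : ℤ)) := by
  classical
  set a : ℕ → ℤ := fun n => ((c * idx k n + y * pw k n : ℕ) : ℤ) with ha
  set p : ℕ → ℤ := fun n => (pw k n : ℤ) with hp
  set i : ℕ → ℤ := fun n => (n : ℤ) with hi
  set o : ℕ → ℤ := fun _ => 1 with ho
  refine isRegular_of_gens hk a {a, p, i, o} (by simp) ?_
  intro d hd g hg
  have hmem : ∀ g ∈ ({a, p, i, o} : Finset (ℕ → ℤ)),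
      g ∈ Submodule.span ℤ (({a, p, i, o} : Finset (ℕ → ℤ)) : Set (ℕ → ℤ)) :=
    fun g hg => Submodule.subset_span (by simpa using hg)
  have ma := hmem a (by simp)
  have mp := hmem p (by simp)
  have mi := hmem i (by simp)
  have mo := hmem o (by simp)
  simp only [Finset.mem_insert, Finset.mem_singleton] at hg
  rcases hg with rfl | rfl | rfl | rfl
  · rcases Nat.eq_zero_or_pos d with rfl | hd0
    · have h : sub k 0 a = a + ((y : ℤ) * ((k : ℤ) - 1)) • p := by
        funext n
        show a (k * n + 0) = a n + ((y : ℤ) * ((k : ℤ) - 1)) * p n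
        simp only [ha, hp, add_zero, idx_mul hk, pw_mul hk]
        push_cast
        ring
      rw [h]
      exact Submodule.add_mem _ ma (Submodule.smul_mem _ _ mp)
    · have h : sub k d a = (c : ℤ) • i + (y : ℤ) • o := by
        funext n
        show a (k * n + d) = (c : ℤ) * i n + (y : ℤ) * o n
        simp only [ha, hi, ho, idx_add hk n hd0 hd, pw_add n hd0 hd]
        push_cast
        ring
      rw [h]
      exact Submodule.add_mem _ (Submodule.smul_mem _ _ mi) (Submodule.smul_mem _ _ mo)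
  · rcases Nat.eq_zero_or_pos d with rfl | hd0
    · have h : sub k 0 p = (k : ℤ) • p := by
        funext n
        show p (k * n + 0) = (k : ℤ) * p n
        simp only [hp, add_zero, pw_mul hk]
        push_cast
        ring
      rw [h]
      exact Submodule.smul_mem _ _ mp
    · have h : sub k d p = o := by
        funext n
        show p (k * n + d) = o n
        simp only [hp, ho, pw_add n hd0 hd]
        rfl
      rw [h]
      exact mo
  · have h : sub k d i = (k : ℤ) • i + (d : ℤ) • o := by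
      funext n
      show i (k * n + d) = (k : ℤ) * i n + (d : ℤ) * o n
      simp only [hi, ho]
      push_cast
      ring
    rw [h]
    exact Submodule.add_mem _ (Submodule.smul_mem _ _ mi) (Submodule.smul_mem _ _ mo)
  · have h : sub k d o = o := rfl
    rw [h]
    exact mo

/-- the criterion for a module of sequences not to be finitely generated -/
theorem not_fg (hk : 2 ≤ k) (S : Submodule ℤ (ℕ → ℤ)) (g : ℕ → ℕ → ℤ) (hg : ∀ j, g j ∈ S)
    (x : ℕ) (P Q R : ℤ) (h0 : ∀ j, g j 0 = k ^ j * P)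
    (h1 : ∀ i j, i ≠ j → g j (k ^ i * x) = k ^ i * Q + k ^ j * P)
    (h2 : ∀ j, g j (k ^ j * x) = k ^ j * R) (hne : R ≠ P + Q) : ¬ S.FG := by
  intro hS
  have hk0 : ∀ i : ℕ, ((k : ℤ) ^ i) ≠ 0 := fun i => pow_ne_zero _ (by
    have : (2 : ℤ) ≤ k := by exact_mod_cast hk
    omega)
  have hind : LinearIndependent ℤ g := by
    rw [linearIndependent_iff']
    intro s c hc
    have e0 : ∑ j ∈ s, c j * ((k : ℤ) ^ j * P) = 0 := by
      have := congrFun hc 0
      simpa [Finset.sum_apply, h0] using this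
    have e1 : ∀ i : ℕ, Q * ∑ j ∈ s, c j + (if i ∈ s then c i * (R - P - Q) else 0) = 0 := by
      intro i
      have h3 := congrFun hc (k ^ i * x)
      simp only [Finset.sum_apply, Pi.smul_apply, smul_eq_mul, Pi.zero_apply] at h3
      have h4 : ∑ j ∈ s, c j * g j (k ^ i * x) = ∑ j ∈ s, (c j * ((k : ℤ) ^ j * P) +
          (k : ℤ) ^ i * Q * c j + if j = i then (k : ℤ) ^ i * (c i * (R - P - Q)) else 0) := by
        refine Finset.sum_congr rfl fun j _ => ?_
        by_cases hij : j = i
        · subst hij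
          rw [h2, if_pos rfl]
          ring
        · rw [h1 i j (Ne.symm hij), if_neg hij]
          ring
      rw [h4, Finset.sum_add_distrib, Finset.sum_add_distrib, e0, zero_add, ← Finset.mul_sum,
        Finset.sum_ite_eq'] at h3
      have h5 : (k : ℤ) ^ i * (Q * ∑ j ∈ s, c j + (if i ∈ s then c i * (R - P - Q) else 0)) = 0 := by
        refine Eq.trans ?_ h3
        split_ifs <;> ring
      exact (mul_eq_zero.1 h5).resolve_left (hk0 i)
    obtain ⟨i0, hi0⟩ := Infinite.exists_notMem_finset s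
    have e2 := e1 i0
    rw [if_neg hi0, add_zero] at e2
    intro i hi
    have e3 := e1 i
    rw [if_pos hi, e2, zero_add] at e3
    refine (mul_eq_zero.1 e3).resolve_right ?_
    intro h6
    apply hne
    linarith
  have hfin : Module.Finite ℤ S := Module.Finite.iff_fg.mpr hS
  have hv : LinearIndependent ℤ (fun j => (⟨g j, hg j⟩ : S)) :=
    LinearIndependent.of_comp S.subtype hind
  have := hv.finite
  exact not_finite ℕ

theorem add_of_preserves (hk : 2 ≤ k) {f : ℕ → ℕ → ℕ} (h0 : f 0 0 = 0)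
    (h : PreservesSequences k f) {x y : ℕ} (hx : x < k) (hy : y < k) :
    f x y = f x 0 + f 0 y := by
  by_contra hne
  have hreg := h (fun n => 1 * idx k n + 0 * pw k n) (fun n => 0 * idx k n + y * pw k n)
    (regular_comb hk 1 0) (regular_comb hk 0 y)
  simp only [one_mul, zero_mul, add_zero, zero_add] at hreg
  refine not_fg hk _ (fun j n => ((digitwise k f n (k ^ j * y) : ℕ) : ℤ)) ?_ x
    (f 0 y) (f x 0) (f x y) ?_ ?_ ?_ ?_ hreg
  · intro j
    refine Submodule.subset_span ⟨j + 1, k ^ j, Nat.pow_lt_pow_right (by omega) (by omega), ?_⟩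
    funext n
    simp only [idx_val hk, pw_val hk, mul_comm y]
  · intro j
    have h1 := dw_same hk h0 (x := 0) (by omega) hy j
    rw [mul_zero] at h1
    simp only [h1]
    push_cast
    ring
  · intro i j hij
    simp only [dw_ne hk h0 hx hy hij]
    push_cast
    ring
  · intro j
    simp only [dw_same hk h0 hx hy j]
    push_cast
    ring
  · intro h1
    apply hne
    have h2 : ((f x y : ℕ) : ℤ) = ((f x 0 + f 0 y : ℕ) : ℤ) := by
      rw [h1]; push_cast; ring
    exact_mod_cast h2

theorem succ_of_preserves (hk : 2 ≤ k) {f : ℕ → ℕ → ℕ} (h0 : f 0 0 = 0)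
    (h : PreservesSequences k f) {x : ℕ} (hx : x + 1 < k) :
    f (x + 1) 0 = f x 0 + f 1 0 := by
  by_contra hne
  have hreg := h (fun n => 1 * idx k n + 1 * pw k n) (fun n => 0 * idx k n + 0 * pw k n)
    (regular_comb hk 1 1) (regular_comb hk 0 0)
  simp only [one_mul, zero_mul, add_zero] at hreg
  have hz : ∀ (j : ℕ) {c : ℕ}, c < k → digitwise k f (k ^ j * c) 0 = k ^ j * f c 0 := by
    intro j c hc
    have h1 := dw_same hk h0 (x := c) (y := 0) hc (by omega) j
    rwa [mul_zero] at h1
  refine not_fg hk _ (fun j n => ((digitwise k f (n + k ^ j) 0 : ℕ) : ℤ)) ?_ x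
    (f 1 0) (f x 0) (f (x + 1) 0) ?_ ?_ ?_ ?_ hreg
  · intro j
    refine Submodule.subset_span ⟨j + 1, k ^ j, Nat.pow_lt_pow_right (by omega) (by omega), ?_⟩
    funext n
    simp only [idx_val hk, pw_val hk]
  · intro j
    have h1 := hz j (c := 1) (by omega)
    rw [mul_one] at h1
    simp only [zero_add, h1]
    push_cast
    ring
  · intro i j hij
    simp only [dw_add hk h0 (x := x) (by omega) hij]
    push_cast
    ring
  · intro j
    have h1 : k ^ j * x + k ^ j = k ^ j * (x + 1) := by ring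
    simp only [h1, hz j hx]
    push_cast
    ring
  · intro h1
    apply hne
    have h2 : ((f (x + 1) 0 : ℕ) : ℤ) = ((f x 0 + f 1 0 : ℕ) : ℤ) := by
      rw [h1]; push_cast; ring
    exact_mod_cast h2

theorem preserves_swap {f : ℕ → ℕ → ℕ} (h : PreservesSequences k f) :
    PreservesSequences k (fun u v => f v u) := by
  intro a b ha hb
  have h1 := h b a hb ha
  simpa only [digitwise_swap] using h1

theorem trivial_of_preserves (hk : 2 ≤ k) {f : ℕ → ℕ → ℕ} (hf : ∀ x < k, ∀ y < k, f x y < k)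
    (h0 : f 0 0 = 0) (h : PreservesSequences k f) : Trivial k f := by
  have hL : ∀ x < k, f x 0 = x * f 1 0 := by
    intro x
    induction x with
    | zero => intro _; simpa using h0
    | succ x ih =>
      intro hx
      rw [succ_of_preserves hk h0 h hx, ih (by omega)]
      ring
  have hR : ∀ y < k, f 0 y = y * f 0 1 := by
    intro y
    induction y with
    | zero => intro _; simpa using h0
    | succ y ih =>
      intro hy
      have h1 := succ_of_preserves hk (f := fun u v => f v u) h0 (preserves_swap h) hy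
      rw [h1, ih (by omega)]
      ring
  have hall : ∀ x < k, ∀ y < k, f x y = x * f 1 0 + y * f 0 1 := by
    intro x hx y hy
    rw [add_of_preserves hk h0 h hx hy, hL x hx, hR y hy]
  obtain ⟨l, rfl⟩ : ∃ l, k = l + 2 := ⟨k - 2, by omega⟩
  have h1 := hf (l + 1) (by omega) (l + 1) (by omega)
  rw [hall (l + 1) (by omega) (l + 1) (by omega), ← mul_add] at h1
  have h2 : f 1 0 + f 0 1 ≤ 1 := by
    by_contra hcon
    have h3 : (l + 1) * 2 ≤ (l + 1) * (f 1 0 + f 0 1) := Nat.mul_le_mul_left _ (by omega)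
    omega
  rcases Nat.eq_zero_or_pos (f 1 0) with h3 | h3
  · rcases Nat.eq_zero_or_pos (f 0 1) with h4 | h4
    · left
      intro x hx y hy
      rw [hall x hx y hy, h3, h4]
      simp
    · right; right
      intro x hx y hy
      have h5 : f 0 1 = 1 := by omega
      rw [hall x hx y hy, h3, h5]
      simp
  · right; left
    intro x hx y hy
    have h5 : f 1 0 = 1 := by omega
    have h6 : f 0 1 = 0 := by omega
    rw [hall x hx y hy, h5, h6]
    simp

theorem exists_not_seq {f : ℕ → ℕ → ℕ} (h : ¬ PreservesSequences k f) :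
    ∃ a b : ℕ → ℕ, IsRegular k (fun n => (a n : ℤ)) ∧ IsRegular k (fun n => (b n : ℤ)) ∧
      ¬ IsRegular k (fun n => (digitwise k f (a n) (b n) : ℤ)) := by
  by_contra hcon
  refine h fun a b ha hb => ?_
  by_contra hab
  exact hcon ⟨a, b, ha, hb, hab⟩

theorem exists_not_array {f : ℕ → ℕ → ℕ} (h : ¬ PreservesArrays k f) :
    ∃ a b : ℕ → ℕ, IsRegular k (fun n => (a n : ℤ)) ∧ IsRegular k (fun n => (b n : ℤ)) ∧
      ¬ IsRegularArray k (fun i j => (digitwise k f (a i) (b j) : ℤ)) := by
  by_contra hcon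
  refine h fun a b ha hb => ?_
  by_contra hab
  exact hcon ⟨a, b, ha, hb, hab⟩

theorem preserves_of_trivial (hk : 2 ≤ k) {f : ℕ → ℕ → ℕ} (h : Trivial k f) :
    PreservesSequences k f := by
  intro a b ha hb
  rcases h with h | h | h
  · simp only [digitwise_of_zero hk h]
    have := regular_comb hk 0 0
    simpa using this
  · simp only [digitwise_of_fst hk h]
    exact ha
  · simp only [digitwise_of_snd hk h]
    exact hb

/-- the diagonal of a regular array is regular -/
theorem regular_diag {c : ℕ → ℕ → ℤ} (h : IsRegularArray k c) :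
    IsRegular k (fun n => c n n) := by
  obtain ⟨s, g, hg⟩ := h
  refine regular_of_le (S := Submodule.span ℤ (Set.range fun i : Fin s => fun n => g i n n))
    (Submodule.fg_span (Set.finite_range _)) ?_
  rintro _ ⟨e, r, hr, rfl⟩
  obtain ⟨z, hz⟩ := hg e r r hr hr
  have h1 : (fun n => c (k ^ e * n + r) (k ^ e * n + r)) =
      ∑ i, z i • (fun n => g i n n : ℕ → ℤ) := by
    funext n
    rw [hz n n, Finset.sum_apply]
    rfl
  show (fun n => c (k ^ e * n + r) (k ^ e * n + r)) ∈ _
  rw [h1]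
  exact Submodule.sum_mem _ fun i _ => Submodule.smul_mem _ _ (Submodule.subset_span ⟨i, rfl⟩)

theorem regular_gens {a : ℕ → ℤ} (ha : IsRegular k a) : ∃ (s : ℕ) (g : Fin s → ℕ → ℤ),
    ∀ e r : ℕ, r < k ^ e → ∃ z : Fin s → ℤ, ∀ n, a (k ^ e * n + r) = ∑ i, z i * g i n := by
  obtain ⟨s, g, hg⟩ := Submodule.fg_iff_exists_fin_generating_family.1 ha
  refine ⟨s, g, fun e r hr => ?_⟩
  have h1 : (fun n => a (k ^ e * n + r)) ∈ Submodule.span ℤ (Set.range g) := by
    rw [hg]
    exact Submodule.subset_span ⟨e, r, hr, rfl⟩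
  obtain ⟨z, hz⟩ := (Submodule.mem_span_range_iff_exists_fun ℤ).1 h1
  refine ⟨z, fun n => ?_⟩
  have h2 := congrFun hz n
  rw [Finset.sum_apply] at h2
  exact h2.symm

theorem arrays_of_trivial (hk : 2 ≤ k) {f : ℕ → ℕ → ℕ} (h : Trivial k f) :
    PreservesArrays k f := by
  intro a b ha hb
  rcases h with h | h | h
  · simp only [digitwise_of_zero hk h]
    exact ⟨0, fun _ _ _ => 0, fun e r t _ _ => ⟨fun _ => 0, fun m n => by simp⟩⟩
  · simp only [digitwise_of_fst hk h]
    obtain ⟨s, g, hg⟩ := regular_gens ha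
    refine ⟨s, fun i m _ => g i m, fun e r t hr _ => ?_⟩
    obtain ⟨z, hz⟩ := hg e r hr
    exact ⟨z, fun m _ => hz m⟩
  · simp only [digitwise_of_snd hk h]
    obtain ⟨s, g, hg⟩ := regular_gens hb
    refine ⟨s, fun i _ n => g i n, fun e r t _ ht => ?_⟩
    obtain ⟨z, hz⟩ := hg e t ht
    exact ⟨z, fun _ n => hz n⟩

end Regular

/-- **Classification of the digitwise operations that preserve `k`-regularity.** Let `k ≥ 2` and let
`f` be any operation on the digits `0, …, k - 1` with `f 0 0 = 0`. For all `k`-regular sequences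
`a`, `b` of natural numbers the sequence of the digitwise results for `a n` and `b n` is `k`-regular
if and only if, on digits, `f` is zero or `f x y = x` or `f x y = y`. The same holds for the arrays
of the digitwise results for `a i` and `b j`. In particular both fail for the nim sum in base `k`
(digitwise addition modulo `k`), for every `k ≥ 2`; for `k = 2` this operation is the bitwise
exclusive or. -/
theorem result :
    (∀ (k : ℕ) (f : ℕ → ℕ → ℕ), 2 ≤ k → (∀ x < k, ∀ y < k, f x y < k) → f 0 0 = 0 →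
      (PreservesSequences k f ↔ Trivial k f) ∧ (PreservesArrays k f ↔ Trivial k f)) ∧
    (∀ k : ℕ, 2 ≤ k →
      (∃ a b : ℕ → ℕ, IsRegular k (fun n => (a n : ℤ)) ∧ IsRegular k (fun n => (b n : ℤ)) ∧
        ¬ IsRegular k (fun n => (digitwise k (fun x y => (x + y) % k) (a n) (b n) : ℤ))) ∧
      (∃ a b : ℕ → ℕ, IsRegular k (fun n => (a n : ℤ)) ∧ IsRegular k (fun n => (b n : ℤ)) ∧
        ¬ IsRegularArray k
          (fun i j => (digitwise k (fun x y => (x + y) % k) (a i) (b j) : ℤ)))) ∧
    (∀ x y : ℕ, digitwise 2 (fun u v => (u + v) % 2) x y = x ^^^ y) := by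
  have main : ∀ (k : ℕ) (f : ℕ → ℕ → ℕ), 2 ≤ k → (∀ x < k, ∀ y < k, f x y < k) → f 0 0 = 0 →
      (PreservesSequences k f ↔ Trivial k f) ∧ (PreservesArrays k f ↔ Trivial k f) := by
    intro k f hk hf h0
    refine ⟨⟨trivial_of_preserves hk hf h0, preserves_of_trivial hk⟩, ⟨fun h => ?_,
      arrays_of_trivial hk⟩⟩
    refine trivial_of_preserves hk hf h0 fun a b ha hb => ?_
    exact regular_diag (c := fun i j => (digitwise k f (a i) (b j) : ℤ)) (h a b ha hb)
  refine ⟨main, fun k hk => ?_, digitwise_xor⟩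
  have hnt := trivial_not k hk
  have hmod : ∀ x < k, ∀ y < k, (fun x y => (x + y) % k) x y < k :=
    fun x _ y _ => Nat.mod_lt _ (by omega)
  have hzero : (fun x y => (x + y) % k) 0 0 = 0 := Nat.zero_mod k
  obtain ⟨h1, h2⟩ := main k (fun x y => (x + y) % k) hk hmod hzero
  exact ⟨exists_not_seq fun h => hnt (h1.1 h), exists_not_array fun h => hnt (h2.1 h)⟩

end Pool.Agent.Results.MP_02a275_nt.AllDigitwiseOperations
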